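import Mathlib
import Pool.Agent.Helper42.Th.Defs

/-!
The condition of Jankins and Neumann for the numbers `1 - r, 1 / n_1, ..., 1 / n_j`.
-/

set_option autoImplicit false

namespace Pool.Agent.Helper42.T4

open Pool.Agent.Helper42.Th

/-- The condition of Jankins and Neumann for the numbers `1 - r` and `1 / n i`: there are
`0 < a < m` such that one number is smaller than `a / m`, a second one is smaller than
`(m - a) / m`, and the other ones are smaller than `1 / m`. -/
def Realizable {j : ℕ} (r : ℚ) (n : Fin j → ℕ) : Prop :=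
  ∃ a m : ℕ, 0 < a ∧ a < m ∧ ∃ x y : Option (Fin j), x ≠ y ∧
    x.elim (1 - r) (fun i => 1 / (n i : ℚ)) < a / m ∧
    y.elim (1 - r) (fun i => 1 / (n i : ℚ)) < (m - a) / m ∧
    ∀ z, z ≠ x → z ≠ y → z.elim (1 - r) (fun i => 1 / (n i : ℚ)) < 1 / m

/-- There is a further dart at the start of `δ`, which is not the first dart of a path `w i`, and
a walk from its end to the end of `δ` which does not return to the start of `δ`. -/
def Extra {E : Type} (Γ : CMap E) (δ : E) {j : ℕ} (w : Fin j → ℕ → E) : Prop :=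
  ∃ e, Γ.rot.SameCycle δ e ∧ e ≠ δ ∧ (∀ i, e ≠ w i 0) ∧ Γ.Away δ (Γ.flip e) (Γ.flip δ)

end Pool.Agent.Helper42.T4
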