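import Mathlib
import Pool.Agent.Helper42.T4.Defs

/-!
The cases in which the condition of Jankins and Neumann does not hold.
-/

set_option autoImplicit false

namespace Pool.Agent.Helper42.T4

variable {j : ℕ} {n : Fin j → ℕ} {p q : ℕ}

/-- The possible cases; `X` is used in the cases of equality. -/
inductive Cases (p q : ℕ) (n : Fin j → ℕ) (X : Prop) : Prop
  | a (i : Fin j) (h : q * n i < p) : Cases p q n X
  | a' (i i' : Fin j) (hi : i ≠ i') (h : q * n i = p) : Cases p q n X
  | a'' (i : Fin j) (h : q * n i = p) (hX : X) : Cases p q n X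
  | b (i i' : Fin j) (hi : i ≠ i') (c : ℕ) (h2 : 2 ≤ n i) (hc : 1 ≤ c)
      (h : ¬ (n i = 2 ∧ c = 1)) (h' : n i' ≤ (c + 1) * n i - 1)
      (hr : q * (c * n i - 1) ≤ c * p) : Cases p q n X
  | c (i i' : Fin j) (hi : i ≠ i') (h : n i = 2) (h' : n i' = 3) (hr : 5 * q ≤ 4 * p) :
      Cases p q n X
  | d (i i' i'' : Fin j) (hi : i ≠ i') (hi' : i ≠ i'') (hi'' : i' ≠ i'') (h : n i = 2)
      (h' : n i' = 2) : Cases p q n X
  | d' (i i' i'' : Fin j) (hi : i ≠ i') (hi' : i ≠ i'') (hi'' : i' ≠ i'') (h : n i = 2)
      (h' : n i' = 3) (h'' : n i'' ≤ 5) : Cases p q n X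
  | d'' (i i' : Fin j) (hi : i ≠ i') (h : n i = 2) (h' : n i' = 2) (hX : X) : Cases p q n X
  | e (i i' : Fin j) (hi : i ≠ i') (h : n i = 2) (h' : n i' = 2) (hr : q < p) : Cases p q n X

lemma lt_of_frac {a m x : ℕ} (hx : 0 < x) (hm : 0 < m) (h : m < a * x) :
    1 / (x : ℚ) < a / m := by
  rw [div_lt_div_iff₀ (by exact_mod_cast hx) (by exact_mod_cast hm)]
  rw [one_mul]
  exact_mod_cast h

lemma none_lt {a m : ℕ} (hp : 0 < p) (hm : 0 < m) (h : a * p < q * m) :
    1 - (q : ℚ) / p < (m - a) / m := by
  have hm' : (0 : ℚ) < m := by exact_mod_cast hm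
  have h1 : (a : ℚ) / m < q / p := by
    rw [div_lt_div_iff₀ hm' (by exact_mod_cast hp)]
    exact_mod_cast h
  rw [sub_div, div_self hm'.ne']
  linarith

/-- The next path. -/
lemma next (hn : ∀ i, 0 < n i) (hp : 0 < p) (H : ¬ Realizable ((q : ℚ) / p) n) (i : Fin j)
    {a m : ℕ} (ha : 0 < a) (ham : a < m) (h1 : m < a * n i) (h2 : a * p < q * m) :
    ∃ i', i' ≠ i ∧ n i' ≤ m := by
  by_contra hcon
  push Not at hcon
  refine H ⟨a, m, ha, ham, some i, none, by simp, lt_of_frac (hn i) (by omega) h1,
    none_lt hp (by omega) h2, fun z h3 h4 => ?_⟩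
  obtain ⟨l, rfl⟩ := Option.ne_none_iff_exists'.mp h4
  have h5 := hcon l (fun h => h3 (by rw [h]))
  have h6 := lt_of_frac (a := 1) (m := m) (x := n l) (hn l) (by omega) (by omega)
  simpa using h6

/-- The list of the cases. -/
theorem cases_of (hn : ∀ i, 0 < n i) (hq : 0 < q) (hpq : q ≤ p)
    {X : Prop} (H0 : (q : ℚ) / p ≤ ∑ i, 1 / (n i : ℚ))
    (HX : (q : ℚ) / p < ∑ i, 1 / (n i : ℚ) ∨ X) (H : ¬ Realizable ((q : ℚ) / p) n) :
    Cases p q n X := by
  have hp : 0 < p := by omega
  have hp' : (0 : ℚ) < p := by exact_mod_cast hp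
  have hq' : (0 : ℚ) < q := by exact_mod_cast hq
  have hne : Nonempty (Fin j) := by
    by_contra hcon
    rw [not_nonempty_iff] at hcon
    rw [Finset.univ_eq_empty, Finset.sum_empty] at H0
    exact absurd H0 (not_le.mpr (by positivity))
  obtain ⟨i, hi⟩ := Finite.exists_min n
  rcases lt_trichotomy (q * n i) p with h | h | h
  · exact Cases.a i h
  · -- a second path
    by_cases hcon : ∃ i', i' ≠ i
    · obtain ⟨i', hi'⟩ := hcon
      exact Cases.a' i i' hi'.symm h
    · rcases HX with H1 | HX
      · exfalso
        push Not at hcon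
        have h1 : (Finset.univ : Finset (Fin j)) = {i} := by
          ext l
          simp [hcon l]
        rw [h1, Finset.sum_singleton, div_lt_div_iff₀ hp' (by exact_mod_cast hn i)] at H1
        have h2 : ((q * n i : ℕ) : ℚ) < p := by
          push_cast
          linarith
        rw [h] at h2
        exact lt_irrefl _ h2
      · exact Cases.a'' i h HX
  · have h2 : 2 ≤ n i := by
      by_contra hcon
      have h3 : n i = 1 := by
        have := hn i
        omega
      rw [h3] at h
      omega
    obtain ⟨D, hD⟩ : ∃ D, q * n i = p + D := ⟨q * n i - p, by omega⟩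
    have hD0 : 0 < D := by omega
    -- the slope is at most `1 / (n - 1)`
    have hDq : D ≤ q := by
      by_contra hcon
      push Not at hcon
      obtain ⟨l, hl⟩ : ∃ l, n i = l + 1 := ⟨n i - 1, by omega⟩
      rw [hl, Nat.mul_add, Nat.mul_one] at hD
      have h3 : 1 < l := by
        by_contra h4
        have h5 : l = 1 := by omega
        subst h5
        omega
      obtain ⟨i', h5, h6⟩ := next hn hp H i (a := 1) (m := l) one_pos h3 (by omega) (by omega)
      have h7 := hi i'
      omega
    obtain ⟨c, hc, hc1, hc2⟩ : ∃ c, 1 ≤ c ∧ c * D ≤ q ∧ q < (c + 1) * D := by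
      refine ⟨q / D, (Nat.one_le_div_iff hD0).mpr hDq, Nat.div_mul_le_self _ _, ?_⟩
      have := Nat.lt_div_mul_add hD0 (a := q)
      rw [Nat.add_mul, Nat.one_mul]
      exact this
    -- the second path
    have e1 : 2 ≤ c * n i := by nlinarith
    have e2 : 4 ≤ (c + 1) * n i := by nlinarith
    have e3 : c + 1 < (c + 1) * n i - 1 := by
      have : (c + 1) * 2 ≤ (c + 1) * n i := Nat.mul_le_mul_left _ h2
      omega
    have e4 : (c + 1) * p < q * ((c + 1) * n i - 1) := by
      have h3 : q * ((c + 1) * n i - 1) + q = (c + 1) * (p + D) := by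
        rw [← hD]
        obtain ⟨e, he⟩ : ∃ e, (c + 1) * n i = e + 1 := ⟨(c + 1) * n i - 1, by omega⟩
        rw [he, Nat.add_sub_cancel]
        have : (c + 1) * (q * n i) = q * ((c + 1) * n i) := by ring
        rw [this, he]
        ring
      have h4 : (c + 1) * (p + D) = (c + 1) * p + (c + 1) * D := by ring
      omega
    have e5 : q * (c * n i - 1) ≤ c * p := by
      have h3 : q * (c * n i - 1) + q = c * (p + D) := by
        rw [← hD]
        obtain ⟨e, he⟩ : ∃ e, c * n i = e + 1 := ⟨c * n i - 1, by omega⟩
        rw [he, Nat.add_sub_cancel]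
        have : c * (q * n i) = q * (c * n i) := by ring
        rw [this, he]
        ring
      have h4 : c * (p + D) = c * p + c * D := by ring
      omega
    obtain ⟨i', h5, h6⟩ := next hn hp H i (a := c + 1) (m := (c + 1) * n i - 1) (by omega) e3
      (by omega) e4
    by_cases h7 : n i = 2 ∧ c = 1
    · obtain ⟨h8, rfl⟩ := h7
      rw [h8] at h6
      have h9 := hi i'
      rcases Nat.lt_or_ge (n i') 3 with h10 | h10
      · have h11 : n i' = 2 := by omega
        rcases Nat.lt_or_ge q p with h12 | h12
        · exact Cases.e i i' h5.symm h8 h11 h12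
        · have h13 : q = p := by omega
          by_cases hcon : ∃ i'', i'' ≠ i ∧ i'' ≠ i'
          · obtain ⟨i'', h14, h15⟩ := hcon
            exact Cases.d i i' i'' h5.symm h14.symm h15.symm h8 h11
          · rcases HX with H1 | HX
            · exfalso
              push Not at hcon
              have h1 : (Finset.univ : Finset (Fin j)) = {i, i'} := by
                ext l
                simp only [Finset.mem_univ, Finset.mem_insert, Finset.mem_singleton, true_iff]
                by_cases hl : l = i
                · exact Or.inl hl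
                · exact Or.inr (hcon l hl)
              rw [h1, Finset.sum_pair h5.symm, h8, h11, h13, div_self hp'.ne'] at H1
              norm_num at H1
            · exact Cases.d'' i i' h5.symm h8 h11 HX
      · have h11 : n i' = 3 := by omega
        rcases Nat.lt_or_ge (4 * p) (5 * q) with h12 | h12
        · -- the third path
          obtain ⟨i'', h14, h15, h16⟩ : ∃ i'', i'' ≠ i ∧ i'' ≠ i' ∧ n i'' ≤ 5 := by
            by_contra hcon
            push Not at hcon
            refine H ⟨3, 5, by norm_num, by norm_num, some i, some i', ?_, ?_, ?_, ?_⟩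
            · intro he
              exact h5 (Option.some_injective _ he).symm
            · simp only [Option.elim_some, h8]
              norm_num
            · simp only [Option.elim_some, h11]
              norm_num
            · intro z h17 h18
              cases z with
              | none =>
                have h19 : (4 : ℚ) * p < 5 * q := by exact_mod_cast h12
                simp only [Option.elim_none]
                have h20 : (4 : ℚ) / 5 < q / p := by
                  rw [div_lt_div_iff₀ (by norm_num) hp']
                  linarith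
                push_cast
                linarith
              | some l =>
                have h19 := hcon l (fun h => h17 (by rw [h])) (fun h => h18 (by rw [h]))
                have h20 := lt_of_frac (a := 1) (m := 5) (x := n l) (hn l) (by omega) (by omega)
                simpa using h20
          exact Cases.d' i i' i'' h5.symm h14.symm h15.symm h8 h11 h16
        · exact Cases.c i i' h5.symm h8 h11 h12
    · exact Cases.b i i' h5.symm c h2 hc h7 h6 e5

end Pool.Agent.Helper42.T4
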