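import Pool.Agent.Helper42.T3.Small

/-!
One path, or two paths of length `2`, and a negative edge of slope at most `q / p`.
-/

set_option autoImplicit false

namespace Pool.Agent.Helper42.T4

open Pool.Agent.Helper31.T3 Pool.Agent.Helper42.T3

variable {J : Type*} [LinearOrder J] {a b : J ≃o J} {k m n p q : ℕ} {v : ℕ → ℕ}

lemma pow_le_pow {u v : J ≃o J} (h : ∀ z, u z ≤ v z) (n : ℕ) (z : J) : (u ^ n) z ≤ (v ^ n) z := by
  induction n generalizing z with
  | zero => exact le_rfl
  | succ n ih =>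
    rw [pow_succ, pow_succ, RelIso.mul_apply, RelIso.mul_apply]
    exact ((u ^ n).monotone (h z)).trans (ih _)

lemma pow_lt_pow {u v : J ≃o J} (h : ∀ z, u z < v z) {n : ℕ} (hn : 0 < n) (z : J) :
    (u ^ n) z < (v ^ n) z := by
  obtain ⟨e, rfl⟩ : ∃ e, n = e + 1 := ⟨n - 1, by omega⟩
  rw [pow_succ, pow_succ, RelIso.mul_apply, RelIso.mul_apply]
  exact ((u ^ e).strictMono (h z)).trans_le (pow_le_pow (fun t => (h t).le) e _)

lemma b_gt {w : ℕ → ℕ} (P : FPth a b n w) (z : J) : z < b z := (F_gt P z).trans_le (P.F_le _ _)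

lemma bpow_gt (h : ∀ z, z < b z) {n : ℕ} (hn : 0 < n) (z : J) : z < (b ^ n) z := by
  have := pow_lt_pow (u := 1) (v := b) (fun z => h z) hn z
  rwa [one_pow] at this

lemma bpow_lt (h : ∀ z, z < b z) {m n : ℕ} (hn : m < n) (z : J) : (b ^ m) z < (b ^ n) z := by
  obtain ⟨e, rfl⟩ : ∃ e, n = m + e := ⟨n - m, by omega⟩
  rw [pow_add, RelIso.mul_apply]
  exact (b ^ m).strictMono (bpow_gt h (by omega) z)

/-- One path of length `n < p / q`. -/
theorem one_lt_false (hp : ∀ z, (b ^ p) z ≤ (a ^ q) z) (P : FPth a b n (fun _ => 1))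
    (h : q * n < p) (z : J) : False := by
  have h1 := pow_le_pow (a_le P) q z
  rw [← pow_mul, Nat.mul_comm] at h1
  exact absurd ((hp z).trans h1) (not_le.mpr (bpow_lt (b_gt P) h z))

/-- One path of length `n = p / q`, and another path. -/
theorem one_eq_false (hp : ∀ z, (b ^ p) z ≤ (a ^ q) z) (P : FPth a b n (fun _ => 1))
    (Q : FPth a b m v) (hPQ : P.Left Q ∨ Q.Left P) (hq : 0 < q) (h : q * n = p) (z : J) :
    False := by
  have hb : ∀ t, P.F 1 t < b t := by
    intro t
    rcases hPQ with h | h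
    · exact (F_gt Q _).trans_le (top2 h t)
    · obtain ⟨s, rfl⟩ := (Q.F 1).surjective t
      exact (top2 h s).trans_lt (b.strictMono (F_gt Q s))
  have h1 := pow_lt_pow (a_lt P hb) hq z
  rw [← pow_mul, Nat.mul_comm, h] at h1
  exact absurd (hp z) (not_le.mpr h1)

/-- Two paths of length `2`. -/
theorem two_two_false (hk : ∀ z, b z ≤ a z) (hp : ∀ z, (b ^ p) z ≤ (a ^ q) z) (h : q < p)
    {P Q : FPth a b 2 (fun _ => 1)} (hPQ : P.Left Q ∨ Q.Left P) (z : J) : False := by
  have h1 : ∀ z, a z ≤ b z := by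
    intro z
    rcases hPQ with h | h
    · exact two_eq hk h z
    · exact two_eq hk h z
  exact absurd ((hp z).trans (pow_le_pow h1 q z)) (not_le.mpr (bpow_lt (b_gt P) h z))

/-- Roots of elements which commute. -/
lemma root_le {u v : J ≃o J} (hc : ∀ z, u (v z) = v (u z)) {n : ℕ}
    (h : ∀ z, (u ^ n) z ≤ (v ^ n) z) (z : J) : n = 0 ∨ u z ≤ v z := by
  rcases Nat.eq_zero_or_pos n with rfl | hn
  · exact Or.inl rfl
  right
  by_contra hcon
  push Not at hcon
  have hcn : ∀ (n : ℕ) z, u ((v ^ n) z) = (v ^ n) (u z) := by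
    intro n
    induction n with
    | zero => intro z; rfl
    | succ n ih =>
      intro z
      rw [pow_succ', RelIso.mul_apply, RelIso.mul_apply, hc, ih]
  have key : ∀ n : ℕ, (v ^ (n + 1)) z < (u ^ (n + 1)) z := by
    intro n
    induction n with
    | zero => simpa using hcon
    | succ n ih =>
      rw [pow_succ u, pow_succ' v, RelIso.mul_apply, RelIso.mul_apply]
      have h1 : v ((v ^ (n + 1)) z) < v ((u ^ (n + 1)) z) := v.strictMono ih
      refine h1.trans ?_
      have hcm : ∀ (m : ℕ) z, v ((u ^ m) z) = (u ^ m) (v z) := by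
        intro m
        induction m with
        | zero => intro z; rfl
        | succ m ihm =>
          intro z
          rw [pow_succ', RelIso.mul_apply, RelIso.mul_apply, ← hc, ihm]
      rw [hcm]
      exact (u ^ (n + 1)).strictMono hcon
  obtain ⟨e, rfl⟩ : ∃ e, n = e + 1 := ⟨n - 1, by omega⟩
  exact absurd (h z) (not_le.mpr (key e))

/-- A power of `b` is at most a power of `a`. -/
lemma pow_cross (hc : ∀ z, a (b z) = b (a z)) (hb : ∀ z, z < b z) (hq : 0 < q)
    (hp : ∀ z, (b ^ p) z ≤ (a ^ q) z) {x y : ℕ} (h : q * x ≤ y * p) (z : J) :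
    (b ^ x) z ≤ (a ^ y) z := by
  have hC : Commute a b := by
    ext t
    exact hc t
  refine (root_le (n := q) (u := b ^ x) (v := a ^ y) (fun t => ?_) (fun t => ?_) z).resolve_left
    (by omega)
  · rw [← RelIso.mul_apply, ← RelIso.mul_apply, (hC.symm.pow_pow x y).eq]
  · rw [← pow_mul, ← pow_mul, Nat.mul_comm x q]
    have h1 : (b ^ (q * x)) t ≤ (b ^ (y * p)) t := by
      rcases Nat.lt_or_ge (q * x) (y * p) with h2 | h2
      · exact (bpow_lt hb h2 t).le
      · rw [le_antisymm h h2]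
    refine h1.trans ?_
    rw [Nat.mul_comm y p, pow_mul, Nat.mul_comm y q, pow_mul]
    exact pow_le_pow hp y t

end Pool.Agent.Helper42.T4
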