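import Pool.Agent.Helper31.T3.Three
import Pool.Agent.Helper42.T3.Sub
import Pool.Agent.Helper42.T4.Small

/-!
A negative edge of slope `r ≤ 4 / 5` in absolute value is a negative edge of slope `1` parallel
to a positive edge of slope `1 - r ≥ 1 / 5`, that is, to a path of length `5`.
-/

set_option autoImplicit false

namespace Pool.Agent.Helper42.T4

open Pool.Agent.Helper31.T3 Pool.Agent.Helper42.T3

variable {J : Type*} [LinearOrder J] {a b : J ≃o J} {m n : ℕ} {v w : ℕ → ℕ}

/-- The label `b` may be increased. -/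
def up (hk : ∀ z, b z ≤ a z) (P : FPth a b n w) : FPth a a n w where
  h := P.h
  F := P.F
  l := P.l
  r := P.r
  pos := P.pos
  wpos := P.wpos
  top := P.top
  bot := P.bot
  lo := P.lo
  hi := P.hi
  one_le := P.one_le
  le_b i z := ⟨(P.le_b i z).1.trans (hk z), (P.le_b i z).2.trans (hk z)⟩
  flow := P.flow
  up := P.up
  down := P.down
  step := P.step
  fst := P.fst
  lst := P.lst

lemma up_left (hk : ∀ z, b z ≤ a z) {P : FPth a b m v} {Q : FPth a b n w} (h : P.Left Q) :
    (up hk P).Left (up hk Q) := fun j i t hj hi d1 d2 g o => h j i t hj hi d1 d2 g o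

/-- The positive part of the negative edge. -/
def ball (hc : ∀ z, a (b z) = b (a z)) (hb : ∀ z, z < b z) (hba : ∀ z, b z < a z)
    (h5 : ∀ z, (b ^ 5) z ≤ (a ^ 4) z) : FPth a a 1 (fun _ => 5) where
  h i := if i = 0 then a else 1
  F _ := b⁻¹ * a
  l _ := a
  r _ := b
  pos := one_pos
  wpos _ := by norm_num
  top z := rfl
  bot z := rfl
  lo i z := by
    split_ifs
    · exact ((hb z).trans (hba z)).le
    · exact le_rfl
  hi i z := by
    split_ifs
    · exact le_rfl
    · exact ((hb z).trans (hba z)).le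
  one_le _ z := ⟨((hb z).trans (hba z)).le, (hb z).le⟩
  le_b _ z := ⟨le_rfl, (hba z).le⟩
  flow _ z := by
    rw [RelIso.mul_apply, RelIso.apply_inv_self, max_eq_right (hba z).le]
  up i z _ h := absurd h (not_le.mpr (hba z))
  down i z hi _ := by
    obtain rfl : i = 0 := by omega
    change z ≤ a z
    exact ((hb z).trans (hba z)).le
  step i z hi := by
    obtain rfl : i = 0 := by omega
    change a z ≤ ((b⁻¹ * a) ^ 5) z
    have hC : Commute a b := by
      ext t
      exact hc t
    have e : (b⁻¹ * a) ^ 5 = (b ^ 5)⁻¹ * a ^ 5 := by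
      rw [hC.symm.inv_left.mul_pow, inv_pow]
    rw [e, RelIso.mul_apply, ← (b ^ 5).le_iff_le, RelIso.apply_inv_self, pow_succ a,
      RelIso.mul_apply]
    exact h5 (a z)
  fst z := hba z
  lst z := hba z

lemma ball_left (hc : ∀ z, a (b z) = b (a z)) (hb : ∀ z, z < b z) (hba : ∀ z, b z < a z)
    (h5 : ∀ z, (b ^ 5) z ≤ (a ^ 4) z) (P : FPth a b n w) :
    (ball hc hb hba h5).Left (up (fun z => (hba z).le) P) :=
  fun _ i t _ _ _ _ _ _ => (P.le_b (i + 1) t).1

/-- Two paths of length `2` and `3`, and a negative edge of slope at most `4 / 5`. -/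
theorem two_three_false (hc : ∀ z, a (b z) = b (a z)) (h5 : ∀ z, (b ^ 5) z ≤ (a ^ 4) z)
    (P : FPth a b 2 (fun _ => 1)) (Q : FPth a b 3 (fun _ => 1)) (h : P.Left Q ∨ Q.Left P)
    (z : J) : False := by
  have hb := b_gt P
  have hC : Commute a b := by
    ext t
    exact hc t
  have hba : ∀ z, b z < a z := by
    intro z
    by_contra hn
    push Not at hn
    have key : ∀ n : ℕ, (a ^ n) z ≤ (b ^ n) z := by
      intro n
      induction n with
      | zero => exact le_rfl
      | succ n ih =>
        rw [pow_succ' a, pow_succ b, RelIso.mul_apply, RelIso.mul_apply]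
        refine (a.monotone ih).trans ?_
        rw [← RelIso.mul_apply, (hC.pow_right n).eq, RelIso.mul_apply]
        exact (b ^ n).monotone hn
    exact absurd ((h5 z).trans (key 4)) (not_le.mpr (bpow_lt hb (by norm_num) z))
  have hk : ∀ z, b z ≤ a z := fun z => (hba z).le
  set R := unit (ball hc hb hba h5) 5 (by
    rw [off, Finset.sum_range_one]) with hR
  set P' := unit (up hk P) 2 (by
    simp [off]) with hP
  set Q' := unit (up hk Q) 3 (by
    simp [off]) with hQ
  have r1 : R.Left P' := left_unit (ball_left hc hb hba h5 P) _ _ _ _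
  have r2 : R.Left Q' := left_unit (ball_left hc hb hba h5 Q) _ _ _ _
  refine three (a := a) (b := a) (fun _ => le_rfl) P' Q' R z ?_
  rcases h with h | h
  · have r3 : P'.Left Q' := left_unit (up_left hk h) _ _ _ _
    exact Or.inr (Or.inr (Or.inr (Or.inr (Or.inl ⟨r1, r3, r2⟩))))
  · have r3 : Q'.Left P' := left_unit (up_left hk h) _ _ _ _
    exact Or.inr (Or.inr (Or.inr (Or.inl ⟨r2, r3, r1⟩)))

end Pool.Agent.Helper42.T4
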