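import Pool.Agent.Helper42.T3.Main
import Pool.Agent.Helper42.T4.Small

/-!
A further edge at the start of the negative edge: the cases of equality.
-/

set_option autoImplicit false

namespace Pool.Agent.Helper42.T4

open Pool.Agent.Helper42.Th Pool.Agent.Helper31.T3 Pool.Agent.Helper42.T3

section first

variable {E : Type} [Finite E] {G : Type*} [Group G] {Γ : CMap E} {L : Lab G Γ} {δ : E}
  {N n M m : ℕ} {p q : ℕ → E} {F F' : E → Prop}

/-- The position of a dart at the start of `δ`. -/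
lemma exists_idx {e : E} (h : Γ.rot.SameCycle δ e) (hne : e ≠ δ) :
    ∃ i, 0 < i ∧ (∀ m, 0 < m → m ≤ i → (Γ.rot ^ m) δ ≠ δ) ∧ (Γ.rot ^ i) δ = e ∧
      ∀ m, m < i → (Γ.rot ^ m) δ ≠ e := by
  classical
  have h1 : ∃ i : ℕ, (Γ.rot ^ i) δ = e := by
    obtain ⟨i, -, hi⟩ := Equiv.Perm.SameCycle.exists_pow_eq'' h
    exact ⟨i, hi.2⟩
  have hs := Nat.find_spec h1
  have hm := fun m (hm : m < Nat.find h1) => Nat.find_min h1 hm
  set i := Nat.find h1 with hi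
  have h0 : 0 < i := by
    rcases Nat.eq_zero_or_pos i with h2 | h2
    · rw [h2] at hs
      exact absurd hs.symm hne
    · exact h2
  refine ⟨i, h0, fun m h2 h3 h4 => ?_, hs, hm⟩
  rcases Nat.lt_or_ge m i with h5 | h5
  · apply hm (i - m) (by omega)
    have h6 : (Γ.rot ^ (i - m)) ((Γ.rot ^ m) δ) = e := by
      rw [← Equiv.Perm.mul_apply, ← pow_add, Nat.sub_add_cancel h3, hs]
    rwa [h4] at h6
  · obtain rfl : m = i := by omega
    exact hne (hs.symm.trans h4)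

omit [Finite E] in
/-- The faces at the start of `δ` before the first edge of the path. -/
lemma face_before (h : Route L δ N n p F) {i : ℕ} (hi : (Γ.rot ^ i) δ = p 0)
    (hmin : ∀ m, m < i → (Γ.rot ^ m) δ ≠ p 0) (hne : ∀ m, 0 < m → m ≤ i → (Γ.rot ^ m) δ ≠ δ)
    (hi0 : 0 < i) : (∀ m, m < i → F ((Γ.rot ^ m) δ)) ∧ ¬ F (p 0) := by
  have A := arc_of_route h
  have hcyc : ∀ m : ℕ, Γ.rot.SameCycle δ ((Γ.rot ^ m) δ) := fun m => ⟨(m : ℤ), by simp⟩
  have key : ∀ m, m < i → F ((Γ.rot ^ m) δ) := by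
    intro m
    induction m with
    | zero => intro _; exact h.side.1
    | succ m ih =>
      intro hm
      have h1 := ih (by omega)
      have h2 : F (Γ.flip ((Γ.rot ^ (m + 1)) δ)) := by
        rw [pow_succ', Equiv.Perm.mul_apply, h.face]
        exact h1
      have hd : (Γ.rot ^ (m + 1)) δ ≠ δ := hne _ (by omega) hm.le
      have hf : (Γ.rot ^ (m + 1)) δ ≠ Γ.flip δ := by
        intro h3
        apply h.simple' 0 h.pos
        have h4 := hcyc (m + 1)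
        rw [h3] at h4
        exact h.start.symm.trans h4
      refine ((h.change _ hd hf).mpr fun l hl => ⟨fun h3 => ?_, fun h3 => ?_⟩).mpr h2
      · rcases Nat.eq_zero_or_pos l with rfl | hl0
        · exact hmin _ hm h3
        · apply h.simple 0 l hl0 hl
          have h4 := hcyc (m + 1)
          rw [h3] at h4
          exact h.start.symm.trans h4
      · -- the edge ends at the start of `δ`
        have h4 : Γ.flip (p l) = (Γ.rot ^ (m + 1)) δ := by rw [← h3, Γ.flip_flip]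
        have h5 : Γ.rot.SameCycle (p 0) (Γ.flip (p l)) := by
          rw [h4]
          exact h.start.symm.trans (hcyc _)
        rcases Nat.lt_or_ge (l + 1) n with h6 | h6
        · exact h.simple 0 (l + 1) (by omega) h6 (h5.trans (h.next l h6))
        · obtain rfl : l = n - 1 := by omega
          exact h.simple' 0 h.pos (h5.trans h.stop)
  refine ⟨key, fun h1 => ?_⟩
  have h2 : F (Γ.flip (p 0)) := by
    obtain ⟨l, rfl⟩ : ∃ l, i = l + 1 := ⟨i - 1, by omega⟩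
    rw [← hi, pow_succ', Equiv.Perm.mul_apply, h.face]
    exact key l (by omega)
  have h3 := (h.change (p 0) (h.ne 0 h.pos) (A.ne_flip h.pos)).mp ⟨fun _ => h2, fun _ => h1⟩
  exact (h3 0 h.pos).1 rfl

/-- The order of the first edges. -/
lemma idx_lt (hp : Route L δ N n p F) (hq : Route L δ M m q F') (hne : p 0 ≠ q 0)
    (hs : ∀ d, F' d → F d) {i j : ℕ} (hi0 : 0 < i) (hi : (Γ.rot ^ i) δ = q 0)
    (hi' : ∀ m, m < i → (Γ.rot ^ m) δ ≠ q 0) (hi'' : ∀ m, 0 < m → m ≤ i → (Γ.rot ^ m) δ ≠ δ)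
    (hj0 : 0 < j) (hj : (Γ.rot ^ j) δ = p 0) (hj' : ∀ m, m < j → (Γ.rot ^ m) δ ≠ p 0)
    (hj'' : ∀ m, 0 < m → m ≤ j → (Γ.rot ^ m) δ ≠ δ) : i < j := by
  by_contra hn
  push Not at hn
  rcases Nat.lt_or_ge j i with h1 | h1
  · apply (face_before hp hj hj' hj'' hj0).2
    apply hs
    rw [← hj]
    exact (face_before hq hi hi' hi'' hi0).1 j h1
  · obtain rfl : i = j := by omega
    exact hne (hj.symm.trans hi)

end first

section equal

variable {E : Type} [Finite E] {G : Type*} [Group G] {Γ : CMap E} {L : Lab G Γ} {δ : E}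
  {N n M m : ℕ} {o p : ℕ → E} {F F' : E → Prop} {Ω : Type*} [CompleteLinearOrder Ω]
  {ρ : G →* (Ω ≃o Ω)} {a b : Ω ≃o Ω} {k : ℕ} {z₀ : Ω}
  (S : Sys Γ δ (lx L ρ) (ly L ρ) a b k) (h0 : z₀ < a z₀)
include S h0

/-- The first edge of a path. -/
lemma first_val (h : Route L δ N n p F) (M : ℕ) (hM : N ≤ M) (z : {z // Reg a z₀ z}) {i : ℕ}
    (hi0 : 0 < i) (hi : (Γ.rot ^ i) δ = p 0) (hi'' : ∀ m, 0 < m → m ≤ i → (Γ.rot ^ m) δ ≠ δ) :
    ((rt S h0 h M hM).F 1 z).1 = Sys.N Γ (ly L ρ) ((Γ.rot ^ i) δ) z.1 := by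
  have h1 : (rt S h0 h M hM).F 1 = flo S h0 (p 0) := rfl
  rw [h1, flo, Pool.Agent.Helper31.T3.posIso_apply, hi, ← N_eq S h0 (p 0) z]
  have h2 := S.first_ge (reg_lt h0 z.2).le hi0 hi''
  rw [hi, ← N_eq S h0 (p 0) z] at h2
  have h3 : z ≤ ((fac S h0 (Γ.flip (p 0)))⁻¹ * fac S h0 (p 0)) z := h2
  rw [max_eq_right h3]

/-- One path of length `n`, and a further edge. -/
theorem one_extra {e : E} (hp : Route L δ N n p F) (hN : ∀ z, (bJ S h0 ^ N) z ≤ aJ h0 z)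
    (he : Γ.rot.SameCycle δ e) (he1 : e ≠ δ) (he2 : e ≠ p 0)
    (haw : Γ.Away δ (Γ.flip e) (Γ.flip δ)) : False := by
  obtain ⟨i, hi0, hi2, hi1, hi3⟩ := exists_idx hp.start (hp.ne 0 hp.pos)
  obtain ⟨l, hl0, hl2, hl1, hl3⟩ := exists_idx he he1
  set z : {z // Reg a z₀ z} := ⟨z₀, reg_self a z₀⟩ with hz
  set P := rt S h0 hp N le_rfl with hP
  obtain ⟨c, hc⟩ : ∃ c, N = c + 1 := ⟨N - 1, by have := P.pos; omega⟩
  have h1 : aJ h0 z ≤ (bJ S h0 ^ c) (P.F 1 z) := by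
    have h2 := P.step 0 z P.pos
    rw [P.top, pow_one] at h2
    exact h2.trans (h_le P c 1 (by omega) _)
  have h2 : (bJ S h0 ^ c) (bJ S h0 z) ≤ (bJ S h0 ^ c) (P.F 1 z) := by
    refine le_trans (le_of_eq ?_) ((hN z).trans h1)
    rw [hc, bsucc]
  have h3 : P.F 1 z = bJ S h0 z :=
    le_antisymm (P.F_le _ _) ((bJ S h0 ^ c).le_iff_le.mp h2)
  have h4 : Sys.N Γ (ly L ρ) ((Γ.rot ^ i) δ) z₀ = b z₀ := by
    rw [← first_val S h0 hp N le_rfl z hi0 hi1 hi2, ← hP, h3]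
    rfl
  have hli : l ≠ i := by
    rintro rfl
    exact he2 (hl1.symm.trans hi1)
  obtain ⟨w, hw1, hw2, hw3⟩ := S.second h0.le hi0 hl0 hli
    (fun m h1 h2 => h2.elim (hi2 m h1) (hl2 m h1)) h4
  have h5 := third_fix L ρ S (hl2 l hl0 le_rfl) (by rw [hl1]; exact haw) h0.le hw1 hw2 hw3
  exact h0.ne' h5

/-- Two paths of length `2`, and a further edge. -/
theorem two_extra_aux {e : E} (hk : ∀ z, bJ S h0 z ≤ aJ h0 z) (hp : Route L δ 2 n p F)
    (ho : Route L δ 2 m o F') (hop : Apart Γ n m p o F F') (hs : ∀ d, F' d → F d)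
    (he : Γ.rot.SameCycle δ e) (he1 : e ≠ δ) (he2 : e ≠ p 0) (he3 : e ≠ o 0)
    (haw : Γ.Away δ (Γ.flip e) (Γ.flip δ)) : False := by
  obtain ⟨i, hi0, hi2, hi1, hi3⟩ := exists_idx ho.start (ho.ne 0 ho.pos)
  obtain ⟨j, hj0, hj2, hj1, hj3⟩ := exists_idx hp.start (hp.ne 0 hp.pos)
  obtain ⟨l, hl0, hl2, hl1, hl3⟩ := exists_idx he he1
  have hij := idx_lt hp ho hop.1 hs hi0 hi1 hi3 hi2 hj0 hj1 hj3 hj2
  set z : {z // Reg a z₀ z} := ⟨z₀, reg_self a z₀⟩ with hz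
  set P := rt S h0 hp 2 le_rfl with hP
  set Q := rt S h0 ho 2 le_rfl with hQ
  have hl : P.Left Q := rt_left S h0 hp ho (disj_of_apart hop) hs _ _ _ _
  have e2 : ∀ t, P.F 2 t ≤ Q.F 1 t := fun t =>
    (Q.F 2).le_iff_le.mp ((bot2 hl t).trans ((hk t).trans (two_le Q t)))
  have h3 : Q.F 1 (P.F 1 z) = bJ S h0 z :=
    le_antisymm (top2 hl z) ((hk z).trans ((two_le P z).trans (e2 _)))
  have h4 : Sys.N Γ (ly L ρ) ((Γ.rot ^ i) δ) (Sys.N Γ (ly L ρ) ((Γ.rot ^ j) δ) z₀) = b z₀ := by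
    rw [← first_val S h0 hp 2 le_rfl z hj0 hj1 hj2, ← first_val S h0 ho 2 le_rfl _ hi0 hi1 hi2,
      ← hP, ← hQ, h3]
    rfl
  have hli : l ≠ i := by
    rintro rfl
    exact he3 (hl1.symm.trans hi1)
  have hlj : l ≠ j := by
    rintro rfl
    exact he2 (hl1.symm.trans hj1)
  obtain ⟨w, hw1, hw2, hw3⟩ := S.third h0.le hi0 hij hl0 hli hlj
    (fun m h1 h2 => h2.elim (hj2 m h1) (hl2 m h1)) h4
  have h5 := third_fix L ρ S (hl2 l hl0 le_rfl) (by rw [hl1]; exact haw) h0.le hw1 hw2 hw3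
  exact h0.ne' h5

/-- Two paths of length `2`, and a further edge. -/
theorem two_extra {e : E} (hk : ∀ z, bJ S h0 z ≤ aJ h0 z) (hp : Route L δ 2 n p F)
    (ho : Route L δ 2 m o F') (hop : Apart Γ n m p o F F')
    (he : Γ.rot.SameCycle δ e) (he1 : e ≠ δ) (he2 : e ≠ p 0) (he3 : e ≠ o 0)
    (haw : Γ.Away δ (Γ.flip e) (Γ.flip δ)) : False := by
  rcases hop.2.2 with hs | hs
  · exact two_extra_aux S h0 hk ho hp hop.symm hs he he1 he3 he2 haw
  · exact two_extra_aux S h0 hk hp ho hop hs he he1 he2 he3 haw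

end equal

end Pool.Agent.Helper42.T4
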