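import Pool.Agent.Helper42.T3.Main
import Pool.Agent.Helper42.T4.Arith
import Pool.Agent.Helper42.T4.Ball
import Pool.Agent.Helper42.T4.Extra
import Pool.Agent.Helper42.T4.Top
import Pool.Agent.Helper89.T4.Two

/-!
Diagrams with one negative crossing ball: the fundamental group is not left-orderable if the
group of the diagram which consists of the negative edge and of paths side by side is not
left-orderable.
-/

set_option autoImplicit false

namespace Pool.Agent.Helper42.T4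

open Pool.Agent.Helper42.Th Pool.Agent.Helper31.T3 Pool.Agent.Helper42.T3

/-- Two paths of the lengths `n` and `(c + 1) * n - 1`. -/
theorem blockB {J : Type*} [LinearOrder J] {a b : J ≃o J} {n c : ℕ} (h2 : 2 ≤ n) (hc1 : 1 ≤ c)
    (hnc : ¬ (n = 2 ∧ c = 1)) (hp : ∀ z, (b ^ (c * n - 1)) z ≤ (a ^ c) z)
    (hc : ∀ z, a (b z) = b (a z)) (P : FPth a b n (fun _ => 1))
    (Q : FPth a b ((c + 1) * n - 1) (fun _ => 1)) (h : P.Left Q ∨ Q.Left P) (z : J) : False := by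
  have h3 : 2 ≤ (c + 1) * n := h2.trans (Nat.le_mul_of_pos_left _ (by omega))
  have h4 : 2 ≤ c * n := h2.trans (Nat.le_mul_of_pos_left _ (by omega))
  exact Pool.Agent.Helper89.T4.two h2 hc1 (fun e1 e2 => hnc ⟨e1, e2⟩) (by omega) (by omega) hp hc
    P Q h z

section

variable {E : Type} {G : Type*} [Group G] {Γ : CMap E} {L : Lab G Γ} {δ : E}
  {Ω : Type*} [CompleteLinearOrder Ω] {ρ : G →* (Ω ≃o Ω)} {a b : Ω ≃o Ω} {p q : ℕ}

lemma aJ_pow {z₀ : Ω} (h0 : z₀ < a z₀) (n : ℕ) (z : {z // Reg a z₀ z}) :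
    ((aJ h0 ^ n) z).1 = (a ^ n) z.1 := by
  induction n generalizing z with
  | zero => rfl
  | succ n ih =>
    rw [pow_succ, pow_succ, RelIso.mul_apply, RelIso.mul_apply, ih]
    rfl

/-- The element of the negative edge does not move up. -/
theorem fix [Finite E] (S : Sys Γ δ (lx L ρ) (ly L ρ) a b 1)
    (hp : ∀ z, z ≤ b z → (b ^ p) z ≤ (a ^ q) z) (hq : 0 < q) (hpq : q ≤ p)
    {j : ℕ} (n len : Fin j → ℕ) (w : Fin j → ℕ → E) (A : Fin j → E → Prop)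
    (hr : ∀ i, Route L δ (n i) (len i) (w i) (A i))
    (ha : ∀ i i', i ≠ i' → Apart Γ (len i) (len i') (w i) (w i') (A i) (A i'))
    (h1 : (q : ℚ) / p ≤ ∑ i, 1 / (n i : ℚ))
    (hX : (q : ℚ) / p < ∑ i, 1 / (n i : ℚ) ∨ Extra Γ δ w) (h2 : ¬ Realizable ((q : ℚ) / p) n) {z : Ω}
    (hz : z ≤ a z) : a z = z := by
  by_contra hne
  have h0 : z < a z := lt_of_le_of_ne hz (Ne.symm hne)
  have z' : {t // Reg a z t} := ⟨z, reg_self a z⟩
  have hn : ∀ i, 0 < n i := by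
    intro i
    obtain ⟨ℓ, e1, e2⟩ := (hr i).length
    have e3 := (e1 0 (hr i).pos).1
    have e4 : ℓ 0 ≤ ∑ i ∈ Finset.range (len i), ℓ i :=
      Finset.single_le_sum (f := ℓ) (fun _ _ => Nat.zero_le _)
        (Finset.mem_range.mpr (hr i).pos)
    omega
  have hk : ∀ z, bJ S h0 z ≤ aJ h0 z := fun z => S.b_le_a (reg_lt h0 z.2).le
  have hc : ∀ z, aJ h0 (bJ S h0 z) = bJ S h0 (aJ h0 z) := fun z => Subtype.ext (S.comm z.1)
  have hJ : ∀ z, (bJ S h0 ^ p) z ≤ (aJ h0 ^ q) z := by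
    intro z
    change ((bJ S h0 ^ p) z).1 ≤ ((aJ h0 ^ q) z).1
    rw [bJ_pow, aJ_pow]
    exact hp _ (S.b_ge (reg_lt h0 z.2).le)
  have hb : ∀ (i : Fin j), ∀ z, z < bJ S h0 z := fun i => b_gt (rt S h0 (hr i) (n i) le_rfl)
  cases cases_of hn hq hpq h1 hX h2 with
  | a i h => exact one_lt_false hJ (rt S h0 (hr i) (n i) le_rfl) h z'
  | a' i i' hi h =>
    exact one_eq_false hJ (rt S h0 (hr i) (n i) le_rfl) (rt S h0 (hr i') (n i') le_rfl)
      (left_or S h0 (hr i) (hr i') (ha i i' hi) _ _ _ _) hq h z'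
  | a'' i h hX =>
    obtain ⟨e, he, he1, he2, haw⟩ := hX
    refine one_extra S h0 (hr i) (fun z => ?_) he he1 (he2 i) haw
    have h3 := pow_cross hc (hb i) hq hJ (x := n i) (y := 1) (by omega) z
    rwa [pow_one] at h3
  | d'' i i' hi h h' hX =>
    obtain ⟨e, he, he1, he2, haw⟩ := hX
    exact two_extra S h0 hk ((hr i).mono h.le) ((hr i').mono h'.le) (ha i i' hi) he he1 (he2 i)
      (he2 i') haw
  | b i i' hi c h2 hc1 h h' hr' =>
    exact blockB h2 hc1 h (pow_cross hc (hb i) hq hJ hr') hc (rt S h0 (hr i) (n i) le_rfl)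
      (rt S h0 (hr i') ((c + 1) * n i - 1) h')
      (left_or S h0 (hr i) (hr i') (ha i i' hi) _ _ _ _) z'
  | c i i' hi h h' hr' =>
    exact two_three_false hc (pow_cross hc (hb i) hq hJ (by omega)) (rt S h0 (hr i) 2 h.le)
      (rt S h0 (hr i') 3 h'.le) (left_or S h0 (hr i) (hr i') (ha i i' hi) _ _ _ _) z'
  | d i i' i'' hi hi' hi'' h h' =>
    refine tri_false S h0 (A := 2) (B := 2) (C := n i'' + 2)
      ⟨_, _, _, _, _, _, _, _, _, (hr i).mono h.le, (hr i').mono h'.le, (hr i'').mono (by omega),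
        ha _ _ hi, ha _ _ hi', ha _ _ hi''⟩ le_rfl (by omega) (by omega)
  | d' i i' i'' hi hi' hi'' h h' h'' =>
    exact tri_false S h0 (A := 2) (B := 3) (C := 5)
      ⟨_, _, _, _, _, _, _, _, _, (hr i).mono h.le, (hr i').mono h'.le, (hr i'').mono h'',
        ha _ _ hi, ha _ _ hi', ha _ _ hi''⟩ (by omega) (by omega) (by omega)
  | e i i' hi h h' hr' =>
    exact two_two_false hk hJ hr' (left_or S h0 (hr i) (hr i') (ha i i' hi) 2 2 h.le h'.le) z'

end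

universe u

/-- The main theorem. -/
theorem main {E : Type} [Finite E] {G : Type u} [Group G] (Γ : CMap E) (L : Lab G Γ) (δ : E)
    (P : Set E) (F : E → Set G) (F₀ : Set G) (p q : ℕ) (hq : 0 < q) (hpq : q ≤ p)
    (hP : ∀ d, d ≠ δ → d ≠ Γ.flip δ → d ∈ P ∨ Γ.flip d ∈ P)
    (hpos : ∀ d ∈ P, Fill true 0 (L.M d) (L.D d) (F d))
    (hneg : Fill false 0 (L.D δ ^ q * L.M δ ^ p) (L.M δ)⁻¹ F₀)
    {j : ℕ} (n len : Fin j → ℕ) (w : Fin j → ℕ → E) (A : Fin j → E → Prop)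
    (hr : ∀ i, Route L δ (n i) (len i) (w i) (A i))
    (ha : ∀ i i', i ≠ i' → Apart Γ (len i) (len i') (w i) (w i') (A i) (A i'))
    (h1 : (q : ℚ) / p ≤ ∑ i, 1 / (n i : ℚ))
    (hX : (q : ℚ) / p < ∑ i, 1 / (n i : ℚ) ∨ Extra Γ δ w) (h2 : ¬ Realizable ((q : ℚ) / p) n)
    (hgen : Subgroup.closure ((L.elts ∪ ⋃ d ∈ P, F d) ∪ F₀) = ⊤) :
    ¬ (Nontrivial G ∧ ∃ _ : LinearOrder G, ∀ f g h : G, g ≤ h → f * g ≤ f * h) :=
  not_leftOrderable L δ P F F₀ p q hq hpq hP hpos hneg (fun _ _ ρ _ hz =>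
    fix (sys L δ P F F₀ p q ρ hq hpq hP hpos hneg) (slope L δ F₀ p q ρ hneg).1 hq hpq n len w A
      hr ha h1 hX h2 hz) hgen

end Pool.Agent.Helper42.T4
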